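import Pool.Agent.Y949.OJ.Sh

set_option autoImplicit false

/-! Project OJ of helper746: shift of the line of integration for the logarithmic derivative of zeta
(helper949; after the explicit formula of helper370). -/

open Complex Filter Topology Set MeasureTheory

namespace Pool.Agent.Y949.OJ

open Pool.Agent.Y746.OJ
open H370 (zset mult Zf rect_residue good_height good_zeta D0 DD D0_nonneg norm_DD DD_cont)

lemma small4 {L : ℝ} (hL : 20 ≤ L) : L ^ 2 * Real.exp (-(L - 1) ^ 2 / 4) ≤ Real.exp (-L) := by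
  have h1 : L ^ 2 ≤ Real.exp (2 * L) := by
    have h := Real.add_one_le_exp L
    have h2 : L ≤ Real.exp L := by linarith
    calc L ^ 2 ≤ (Real.exp L) ^ 2 := by
          apply pow_le_pow_left₀ (by linarith) h2
      _ = Real.exp (2 * L) := by rw [← Real.exp_nat_mul]; norm_num
  calc L ^ 2 * Real.exp (-(L - 1) ^ 2 / 4)
      ≤ Real.exp (2 * L) * Real.exp (-(L - 1) ^ 2 / 4) := by gcongr
    _ = Real.exp (2 * L + -(L - 1) ^ 2 / 4) := by rw [← Real.exp_add]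
    _ ≤ Real.exp (-L) := by
        apply Real.exp_le_exp.2
        nlinarith

lemma small8 {L : ℝ} (hL : 20 ≤ L) : Real.exp (-(L - 1) ^ 2 / 8) ≤ Real.exp (-L) := by
  apply Real.exp_le_exp.2
  nlinarith

theorem t_CT : S_CT := by
  obtain ⟨C1, hC1, hgh⟩ := good_height good_zeta
  have hF := good_zeta
  have hD0 := D0_nonneg
  refine ⟨5 * C1 + 6 * D0 + 1, Real.exp 20, by positivity, ?_, ?_⟩
  · have := Real.add_one_le_exp (20 : ℝ)
    linarith
  intro T hT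
  have hTpos : 0 < T := (Real.exp_pos _).trans_le hT
  set L := Real.log T with hL
  have hL20 : 20 ≤ L := by
    rw [hL, Real.le_log_iff_exp_le hTpos]; exact hT
  have hT21 : 21 ≤ T := by
    have := Real.add_one_le_exp (20 : ℝ)
    linarith
  obtain ⟨U1, hU1, hg1⟩ := hgh T (by linarith)
  obtain ⟨U2, hU2, hg2⟩ := hgh (2 * T - 1) (by linarith)
  have hU2' : U2 ≤ 2 * T := by linarith [hU2.2]
  refine ⟨U1, U2, hU1.1, hU1.2, hU2.1, hU2', ?_⟩
  intro V M0 M hM0 hM hV t ht1 ht2 σ hσ1 hσ2 hnz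
  have hU12 : U1 < U2 := by linarith [hU1.2, hU2.1]
  have hW1 : U1 ≤ t - (L - 1) := by linarith [hU1.2]
  have hW2 : t + (L - 1) ≤ U2 := by linarith [hU2.1]
  have hW0 : 0 ≤ L - 1 := by linarith
  have hVd := hV.1
  have hVs := hV.2.2.2
  have hU1p : 0 < U1 := by linarith [hU1.1]
  have hmem : ∀ s : ℂ, s ∈ Zf riemannZeta U1 U2 ↔ s ∈ zset riemannZeta U1 U2 := fun s =>
    H370.mem_Zf hF (by linarith [hU1.1])
  -- the kernel
  set K : ℂ → ℂ := fun s => V (-((s - σ) * I) - t) with hK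
  have hKd : Differentiable ℂ K := hVd.comp (by fun_prop)
  have hKe : ∀ x y : ℝ, K (⟨x, y⟩ : ℂ) = V (((y - t : ℝ) : ℂ) - ((x - σ : ℝ) : ℂ) * I) := by
    intro x y
    simp only [hK]
    congr 1
    rw [H370.mk_eq]
    push_cast
    linear_combination (-(y : ℂ)) * I_sq
  have hKb : ∀ x y : ℝ, σ ≤ x → x ≤ 3 / 2 → ‖K (⟨x, y⟩ : ℂ)‖ ≤ M * Real.exp (-(y - t) ^ 2 / 4) := by
    intro x y h1 h2
    rw [hKe]
    have h := hVs (((y - t : ℝ) : ℂ) - ((x - σ : ℝ) : ℂ) * I) (by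
      simp only [sub_im, ofReal_im, mul_im, ofReal_re, I_im, mul_one, I_re, mul_zero, add_zero, zero_sub,
        abs_neg]
      rw [abs_of_nonneg (by linarith)]; linarith)
    have e1 : (((y - t : ℝ) : ℂ) - ((x - σ : ℝ) : ℂ) * I).re = y - t := by simp
    rwa [e1] at h
  -- residue theorem
  have hR1 : ∀ s ∈ Set.Icc σ (3 / 2 : ℝ) ×ℂ Set.Icc U1 U2, 1 ≤ s.im ∧ U1 ≤ s.im ∧ s.im ≤ U2 ∧
      σ ≤ s.re ∧ s.re ≤ 3 / 2 := by
    intro s hs
    obtain ⟨h1, h2⟩ := hs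
    rw [mem_preimage] at h1 h2
    exact ⟨by linarith [h2.1, hU1.1], h2.1, h2.2, h1.1, h1.2⟩
  have hzero : ∀ s ∈ Set.Icc σ (3 / 2 : ℝ) ×ℂ Set.Icc U1 U2, riemannZeta s = 0 →
      σ < s.re ∧ s.re < 1 ∧ U1 < s.im ∧ s.im < U2 := by
    intro s hs h0
    obtain ⟨h1, h2, h3, h4, h5⟩ := hR1 s hs
    have k2 : s.re < 1 := by
      by_contra hc
      exact hF.nzr s (not_lt.1 hc) h1 h0
    have k3 : U1 < s.im := by
      refine lt_of_le_of_ne h2 (fun he => ?_)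
      have := (hg1 s.re ⟨by linarith, h5⟩).1
      rw [he] at this
      exact this h0
    have k4 : s.im < U2 := by
      refine lt_of_le_of_ne h3 (fun he => ?_)
      have := (hg2 s.re ⟨by linarith, h5⟩).1
      rw [← he] at this
      exact this h0
    refine ⟨?_, k2, k3, k4⟩
    refine lt_of_le_of_ne h4 (fun he => ?_)
    exact hnz s ((hmem s).2 ⟨by linarith, k2, k3, k4.le, h0⟩) he.symm
  have hres := (rect_residue riemannZeta K σ (3 / 2) U1 U2 hσ2 hU12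
    (fun s hs => hF.an s (by linarith [(hR1 s hs).1])) hKd
    (fun s hs h0 => by
      obtain ⟨h1, h2, h3, h4⟩ := hzero s hs h0
      exact ⟨⟨by linarith, by linarith⟩, ⟨h3, h4⟩⟩)).2
  have hset : {s | s ∈ Set.Ioo σ (3 / 2 : ℝ) ×ℂ Set.Ioo U1 U2 ∧ riemannZeta s = 0} =
      ((ZR U1 U2 σ : Finset ℂ) : Set ℂ) := by
    ext s
    unfold ZR
    rw [Finset.coe_filter]
    simp only [Set.mem_ofPred_eq]
    rw [hmem]
    constructor
    · rintro ⟨h1, h2⟩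
      obtain ⟨h3, h4, h5, h6⟩ := hzero s ⟨Ioo_subset_Icc_self h1.1, Ioo_subset_Icc_self h1.2⟩ h2
      exact ⟨⟨by linarith, h4, h5, h6.le, h2⟩, h3⟩
    · rintro ⟨⟨h3, h4, h5, h6, h7⟩, h8⟩
      obtain ⟨k1, k2, k3, k4⟩ := hzero s ⟨⟨h8.le, by linarith⟩, ⟨h5.le, h6⟩⟩ h7
      exact ⟨⟨⟨by linarith, by linarith⟩, ⟨k3, k4⟩⟩, h7⟩
  rw [hset, finsum_mem_coe_finset] at hres
  have hKz : ∀ s : ℂ, K s = V (((s.im - t : ℝ) : ℂ) - ((s.re - σ : ℝ) : ℂ) * I) := by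
    intro s
    exact hKe s.re s.im
  have hsum : (∑ s ∈ ZR U1 U2 σ, (mult riemannZeta s : ℂ) * K s) = ∑ s ∈ ZR U1 U2 σ,
      (mult riemannZeta s : ℂ) * V (((s.im - t : ℝ) : ℂ) - ((s.re - σ : ℝ) : ℂ) * I) :=
    Finset.sum_congr rfl (fun s _ => by rw [hKz])
  rw [hsum] at hres
  set SZ := ∑ s ∈ ZR U1 U2 σ,
      (mult riemannZeta s : ℂ) * V (((s.im - t : ℝ) : ℂ) - ((s.re - σ : ℝ) : ℂ) * I) with hSZ
  have hLfe : (∫ y in U1..U2, deriv riemannZeta (⟨σ, y⟩ : ℂ) / riemannZeta ⟨σ, y⟩ * K ⟨σ, y⟩) =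
      ∫ y in U1..U2, LD (pt σ y) * V ((y - t : ℝ) : ℂ) := by
    congr 1
    funext y
    rw [hKe, sub_self, ofReal_zero, zero_mul, sub_zero, H370.mk_eq]
    rfl
  rw [hLfe] at hres
  set Lf := ∫ y in U1..U2, LD (pt σ y) * V ((y - t : ℝ) : ℂ) with hLf
  set HB := ∫ x in σ..(3 / 2), deriv riemannZeta (⟨x, U1⟩ : ℂ) / riemannZeta ⟨x, U1⟩ * K ⟨x, U1⟩ with hHB
  set HT := ∫ x in σ..(3 / 2), deriv riemannZeta (⟨x, U2⟩ : ℂ) / riemannZeta ⟨x, U2⟩ * K ⟨x, U2⟩ with hHT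
  set R := ∫ y in U1..U2, deriv riemannZeta (⟨3 / 2, y⟩ : ℂ) / riemannZeta ⟨3 / 2, y⟩ * K ⟨3 / 2, y⟩ with hR
  -- bound of the horizontal sides
  have hδ : 0 < Real.exp (-(L - 1) ^ 2 / 4) := Real.exp_pos _
  have hsm := small4 hL20
  have hsm8 := small8 hL20
  have hTe : Real.exp (-L) = 1 / T := by
    rw [Real.exp_neg, hL, Real.exp_log hTpos, one_div]
  have hhor : ∀ (U : ℝ) (x : ℝ), (L - 1) ^ 2 ≤ (U - t) ^ 2 → σ ≤ x → x ≤ 3 / 2 →
      ‖K (⟨x, U⟩ : ℂ)‖ ≤ M * Real.exp (-(L - 1) ^ 2 / 4) := by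
    intro U x hU hx1 hx2
    refine (hKb x U hx1 hx2).trans ?_
    apply mul_le_mul_of_nonneg_left _ hM
    apply Real.exp_le_exp.2
    linarith
  have habs : |(3 / 2 : ℝ) - σ| ≤ 1 := by
    rw [abs_of_nonneg (by linarith)]; linarith
  have hHBb : ‖HB‖ ≤ C1 * (M / T) := by
    have : ‖HB‖ ≤ (C1 * L ^ 2 * (M * Real.exp (-(L - 1) ^ 2 / 4))) * |(3 / 2 : ℝ) - σ| := by
      apply intervalIntegral.norm_integral_le_of_norm_le_const
      intro x hx
      rw [uIoc_of_le hσ2.le] at hx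
      rw [norm_mul]
      apply mul_le_mul (hg1 x ⟨by linarith [hx.1], hx.2⟩).2 _ (norm_nonneg _) (by positivity)
      apply hhor U1 x _ hx.1.le hx.2
      nlinarith
    calc ‖HB‖ ≤ _ := this
      _ ≤ (C1 * L ^ 2 * (M * Real.exp (-(L - 1) ^ 2 / 4))) * 1 := by
          apply mul_le_mul_of_nonneg_left habs (by positivity)
      _ = C1 * M * (L ^ 2 * Real.exp (-(L - 1) ^ 2 / 4)) := by ring
      _ ≤ C1 * M * Real.exp (-L) := mul_le_mul_of_nonneg_left hsm (by positivity)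
      _ = C1 * (M / T) := by rw [hTe]; ring
  have hlog2 : Real.log (2 * T - 1) ≤ 2 * L := by
    have : Real.log (2 * T - 1) ≤ Real.log (T ^ 2) := by
      apply Real.log_le_log (by linarith)
      nlinarith
    rw [Real.log_pow] at this
    exact_mod_cast this
  have hlog20 : 0 ≤ Real.log (2 * T - 1) := Real.log_nonneg (by linarith)
  have hHTb : ‖HT‖ ≤ 4 * C1 * (M / T) := by
    have : ‖HT‖ ≤ (C1 * (2 * L) ^ 2 * (M * Real.exp (-(L - 1) ^ 2 / 4))) * |(3 / 2 : ℝ) - σ| := by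
      apply intervalIntegral.norm_integral_le_of_norm_le_const
      intro x hx
      rw [uIoc_of_le hσ2.le] at hx
      rw [norm_mul]
      apply mul_le_mul _ _ (norm_nonneg _) (by positivity)
      · refine (hg2 x ⟨by linarith [hx.1], hx.2⟩).2.trans ?_
        apply mul_le_mul_of_nonneg_left _ hC1.le
        exact pow_le_pow_left₀ hlog20 hlog2 2
      apply hhor U2 x _ hx.1.le hx.2
      nlinarith
    calc ‖HT‖ ≤ _ := this
      _ ≤ (C1 * (2 * L) ^ 2 * (M * Real.exp (-(L - 1) ^ 2 / 4))) * 1 := by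
          apply mul_le_mul_of_nonneg_left habs (by positivity)
      _ = 4 * C1 * M * (L ^ 2 * Real.exp (-(L - 1) ^ 2 / 4)) := by ring
      _ ≤ 4 * C1 * M * Real.exp (-L) := mul_le_mul_of_nonneg_left hsm (by positivity)
      _ = 4 * C1 * (M / T) := by rw [hTe]; ring
  -- right side
  have hReq : R = - ∫ y in U1..U2, DD la (⟨3 / 2, y⟩ : ℂ) * K ⟨3 / 2, y⟩ := by
    rw [hR, ← intervalIntegral.integral_neg]
    congr 1
    funext y
    rw [ld_la (by norm_num)]; ring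
  have hKc : Continuous (fun v : ℝ => K (⟨3 / 2, v⟩ : ℂ)) := by
    have : (fun v : ℝ => K (⟨3 / 2, v⟩ : ℂ)) = fun v : ℝ => K (((3 / 2 : ℝ) : ℂ) + v * I) := by
      funext v; rw [H370.mk_eq]
    rw [this]
    exact hKd.continuous.comp (by fun_prop)
  have heR : ‖(∫ v : ℝ, DD la (⟨3 / 2, v⟩ : ℂ) * K (⟨3 / 2, v⟩ : ℂ)) -
      ∫ y in U1..U2, DD la (⟨3 / 2, y⟩ : ℂ) * K ⟨3 / 2, y⟩‖ ≤ 6 * D0 * (M / T) := by
    have hb : ∀ v : ℝ, ‖DD la (⟨3 / 2, v⟩ : ℂ) * K (⟨3 / 2, v⟩ : ℂ)‖ ≤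
        (D0 * M) * Real.exp (-(v - t) ^ 2 / 4) := by
      intro v
      rw [norm_mul, mul_assoc]
      exact mul_le_mul (norm_DD la norm_la v) (hKb _ _ hσ2.le le_rfl) (norm_nonneg _) hD0
    have := tail4 (((DD_cont la norm_la).mul hKc).aestronglyMeasurable)
      (by positivity) hb hW0 hW1 hW2
    refine this.trans ?_
    calc D0 * M * (6 * Real.exp (-(L - 1) ^ 2 / 8)) ≤ D0 * M * (6 * Real.exp (-L)) := by gcongr
      _ = 6 * D0 * (M / T) := by rw [hTe]; ring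
  have hPP : (∫ v : ℝ, DD la (⟨3 / 2, v⟩ : ℂ) * K (⟨3 / 2, v⟩ : ℂ)) =
      ∑' n : ℕ, (ArithmeticFunction.vonMangoldt n : ℂ) * (n : ℂ) ^ (-(pt σ t)) *
          VH V (Real.log n) := by
    rw [← DV_integral hM hV hσ1 hσ2 t]
    congr 1
    funext v
    rw [hKe]
  rw [hPP] at heR
  set P := ∑' n : ℕ, (ArithmeticFunction.vonMangoldt n : ℂ) * (n : ℂ) ^ (-(pt σ t)) *
          VH V (Real.log n) with hP
  set IR := ∫ y in U1..U2, DD la (⟨3 / 2, y⟩ : ℂ) * K ⟨3 / 2, y⟩ with hIR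
  have hmain : Lf + P + 2 * Real.pi * SZ = (-I) * (HB - HT) + (P - IR) := by
    have hI : I ≠ 0 := I_ne_zero
    rw [hReq] at hres
    have h5 : I * (Lf + P + 2 * Real.pi * SZ) = I * ((-I) * (HB - HT) + (P - IR)) := by
      linear_combination (-1 : ℂ) * hres + (HB - HT) * I_sq
    exact mul_left_cancel₀ hI h5
  rw [hmain]
  calc ‖(-I) * (HB - HT) + (P - IR)‖ ≤ ‖(-I) * (HB - HT)‖ + ‖P - IR‖ := norm_add_le _ _
    _ ≤ (C1 * (M / T) + 4 * C1 * (M / T)) + 6 * D0 * (M / T) := by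
        apply add_le_add _ heR
        rw [norm_mul, norm_neg, norm_I, one_mul]
        exact (norm_sub_le _ _).trans (add_le_add hHBb hHTb)
    _ ≤ (5 * C1 + 6 * D0 + 1) * (M / T) := by
        have : 0 ≤ M / T := by positivity
        nlinarith
    _ = (5 * C1 + 6 * D0 + 1) * M / T := by ring

end Pool.Agent.Y949.OJ
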