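import Pool.Agent.Y746.OJ.Stm
import Pool.Agent.H370R2.EF
import Pool.Agent.H370R2.DirGood
import Pool.Agent.H370R2.PC1

set_option autoImplicit false

/-! Project OJ of helper746: shift of the line of integration (helper949). -/

open Complex Filter Topology Set MeasureTheory

namespace Pool.Agent.Y949.OJ

/-- shift of the line of integration -/
lemma lshift {f : ℂ → ℂ} (hf : Differentiable ℂ f) {K a : ℝ} (ha : 0 ≤ a) (hK : 0 ≤ K)
    (hb : ∀ x y : ℝ, 0 ≤ y → y ≤ a → ‖f ((x : ℂ) - (y : ℂ) * I)‖ ≤ K * Real.exp (-x ^ 2 / 4)) :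
    ∫ x : ℝ, f ((x : ℂ) - (a : ℂ) * I) = ∫ x : ℝ, f (x : ℂ) := by
  have hG : Integrable (fun x : ℝ => K * Real.exp (-x ^ 2 / 4)) := by
    have := (integrable_exp_neg_mul_sq (b := 1 / 4) (by norm_num)).const_mul K
    refine this.congr (Eventually.of_forall fun v => ?_)
    simp only; congr 2; ring
  have hi1 : Integrable (fun x : ℝ => f ((x : ℂ) - (a : ℂ) * I)) :=
    hG.mono' (hf.continuous.comp (by fun_prop)).aestronglyMeasurable
      (Eventually.of_forall fun x => hb x a ha le_rfl)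
  have hi2 : Integrable (fun x : ℝ => f (x : ℂ)) :=
    hG.mono' (hf.continuous.comp (by fun_prop)).aestronglyMeasurable
      (Eventually.of_forall fun x => by simpa using hb x 0 le_rfl ha)
  have t1 : Tendsto (fun R : ℝ => ∫ x in (-R)..R, f ((x : ℂ) - (a : ℂ) * I)) atTop
      (𝓝 (∫ x : ℝ, f ((x : ℂ) - (a : ℂ) * I))) :=
    intervalIntegral_tendsto_integral hi1 tendsto_neg_atTop_atBot tendsto_id
  have t2 : Tendsto (fun R : ℝ => ∫ x in (-R)..R, f (x : ℂ)) atTop
      (𝓝 (∫ x : ℝ, f (x : ℂ))) :=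
    intervalIntegral_tendsto_integral hi2 tendsto_neg_atTop_atBot tendsto_id
  -- the vertical sides
  have hv : ∀ R : ℝ, ‖(∫ x in (-R)..R, f ((x : ℂ) - (a : ℂ) * I)) - ∫ x in (-R)..R, f (x : ℂ)‖ ≤
      2 * (K * Real.exp (-R ^ 2 / 4) * a) := by
    intro R
    have h := Complex.integral_boundary_rect_eq_zero_of_differentiableOn f
      ((-R : ℝ) - (a : ℂ) * I) ((R : ℝ) : ℂ) hf.differentiableOn
    have e1 : ((((-R : ℝ) : ℂ) - (a : ℂ) * I)).re = -R := by simp
    have e2 : ((((-R : ℝ) : ℂ) - (a : ℂ) * I)).im = -a := by simp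
    rw [e1, e2] at h
    simp only [ofReal_re, ofReal_im, ofReal_zero, zero_mul, add_zero] at h
    have k1 : ∀ s : ℝ, |s| = |R| → ‖∫ y in (-a)..0, f ((s : ℂ) + (y : ℂ) * I)‖ ≤
        K * Real.exp (-R ^ 2 / 4) * a := by
      intro s hs
      have hs2 : s ^ 2 = R ^ 2 := (sq_eq_sq_iff_abs_eq_abs s R).2 hs
      have := intervalIntegral.norm_integral_le_of_norm_le_const
        (f := fun y : ℝ => f ((s : ℂ) + (y : ℂ) * I)) (a := -a) (b := 0)
        (C := K * Real.exp (-R ^ 2 / 4)) (by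
          intro y hy
          rw [uIoc_of_le (by linarith)] at hy
          have := hb s (-y) (by linarith [hy.2]) (by linarith [hy.1])
          have e : ((s : ℂ) - ((-y : ℝ) : ℂ) * I) = (s : ℂ) + (y : ℂ) * I := by push_cast; ring
          rw [hs2, e] at this
          exact this)
      simpa [abs_of_nonneg ha] using this
    have h1 : (∫ x in (-R)..R, f ((x : ℂ) - (a : ℂ) * I)) - ∫ x in (-R)..R, f (x : ℂ) =
        I • (∫ y in (-a)..0, f (((-R : ℝ) : ℂ) + (y : ℂ) * I)) -
        I • (∫ y in (-a)..0, f ((R : ℂ) + (y : ℂ) * I)) := by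
      have e3 : (∫ x in (-R)..R, f ((x : ℂ) - (a : ℂ) * I)) =
          ∫ x in (-R)..R, f ((x : ℂ) + ((-a : ℝ) : ℂ) * I) := by
        congr 1
        funext x
        congr 1
        push_cast; ring
      rw [e3]
      linear_combination h
    rw [h1]
    refine (norm_sub_le _ _).trans ?_
    rw [norm_smul, norm_smul, norm_I, one_mul, one_mul]
    have k2 := k1 (-R) (abs_neg R)
    have k3 := k1 R rfl
    linarith
  have t3 : Tendsto (fun R : ℝ => (∫ x in (-R)..R, f ((x : ℂ) - (a : ℂ) * I)) -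
      ∫ x in (-R)..R, f (x : ℂ)) atTop (𝓝 0) := by
    apply squeeze_zero_norm hv
    have : Tendsto (fun R : ℝ => Real.exp (-R ^ 2 / 4)) atTop (𝓝 0) := by
      apply Real.tendsto_exp_atBot.comp
      have h2 : Tendsto (fun R : ℝ => R ^ 2 / 4) atTop atTop :=
        (tendsto_pow_atTop (by norm_num)).atTop_div_const (by norm_num)
      have h3 := tendsto_neg_atTop_atBot.comp h2
      refine h3.congr (fun R => ?_)
      simp only [Function.comp]; ring
    have h4 := (((this.const_mul K).mul_const a).const_mul 2)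
    simpa using h4
  have t4 := t1.sub t2
  have := tendsto_nhds_unique t4 t3
  exact sub_eq_zero.1 this

open Pool.Agent.Y746.OJ

/-- the shift for the kernels -/
lemma shiftV {V : ℂ → ℂ} {M0 M : ℝ} (hM : 0 ≤ M) (hV : KerOK V M0 M) {a : ℝ} (ha : 0 ≤ a) (ha1 : a ≤ 1)
    {ξ : ℝ} (hξ : 0 ≤ ξ) :
    ∫ v : ℝ, V ((v : ℂ) - (a : ℂ) * I) * cexp (-(ξ : ℂ) * (v : ℂ) * I) =
      cexp ((ξ * a : ℝ) : ℂ) * VH V ξ := by
  obtain ⟨hd, -, -, hs⟩ := hV
  have h := lshift (f := fun z => V z * cexp (-(ξ : ℂ) * z * I)) (hd.mul (by fun_prop)) ha hM (by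
    intro x y hy hya
    rw [norm_mul, Complex.norm_exp]
    have h1 := hs ((x : ℂ) - (y : ℂ) * I) (by
      simp only [sub_im, ofReal_im, mul_im, ofReal_re, I_im, mul_one, I_re, mul_zero, add_zero, zero_sub,
        abs_neg]
      rw [abs_of_nonneg hy]; linarith)
    have e1 : ((x : ℂ) - (y : ℂ) * I).re = x := by simp
    rw [e1] at h1
    have e2 : (-(ξ : ℂ) * ((x : ℂ) - (y : ℂ) * I) * I).re = -(ξ * y) := by
      simp
    rw [e2]
    have h2 : Real.exp (-(ξ * y)) ≤ 1 := by
      rw [Real.exp_le_one_iff]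
      have := mul_nonneg hξ hy
      linarith
    calc ‖V ((x : ℂ) - (y : ℂ) * I)‖ * Real.exp (-(ξ * y)) ≤ (M * Real.exp (-x ^ 2 / 4)) * 1 :=
          mul_le_mul h1 h2 (Real.exp_pos _).le (by positivity)
      _ = _ := mul_one _)
  unfold VH
  rw [← h, ← integral_const_mul]
  congr 1
  funext v
  have e3 : cexp (-(ξ : ℂ) * (v : ℂ) * I) = cexp ((ξ * a : ℝ) : ℂ) *
      cexp (-(ξ : ℂ) * ((v : ℂ) - (a : ℂ) * I) * I) := by
    rw [← Complex.exp_add]
    congr 1
    push_cast
    linear_combination (-(ξ : ℂ) * a) * I_sq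
  rw [e3]
  ring

/-- truncation of a Gaussian integral -/
lemma tail4 {f : ℝ → ℂ} (hf : AEStronglyMeasurable f volume) {K t W U1 U2 : ℝ}
    (hK : 0 ≤ K) (hb : ∀ v, ‖f v‖ ≤ K * Real.exp (-(v - t) ^ 2 / 4)) (hW : 0 ≤ W)
    (h1 : U1 ≤ t - W) (h2 : t + W ≤ U2) :
    ‖(∫ v : ℝ, f v) - ∫ v in U1..U2, f v‖ ≤ K * (6 * Real.exp (-W ^ 2 / 8)) := by
  have hU : U1 ≤ U2 := by linarith
  have hg2 : Integrable (fun v : ℝ => K * Real.exp (-(v - t) ^ 2 / 4)) := by
    have := (H370.gauss_int t (1 / 4) (by norm_num)).const_mul K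
    refine this.congr (Eventually.of_forall fun v => ?_)
    simp only; congr 2; ring
  have hfi : Integrable f := hg2.mono' hf (Eventually.of_forall hb)
  rw [intervalIntegral.integral_of_le hU]
  have e1 : (∫ v : ℝ, f v) - ∫ v in Ioc U1 U2, f v = ∫ v in (Ioc U1 U2)ᶜ, f v := by
    rw [← integral_add_compl measurableSet_Ioc hfi]
    ring
  rw [e1]
  have hg4 : Integrable (fun v : ℝ => K * Real.exp (-W ^ 2 / 8) * Real.exp (-(1 / 8) * (v - t) ^ 2)) :=
    (H370.gauss_int t (1 / 8) (by norm_num)).const_mul _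
  calc ‖∫ v in (Ioc U1 U2)ᶜ, f v‖ ≤ ∫ v in (Ioc U1 U2)ᶜ, ‖f v‖ := norm_integral_le_integral_norm _
    _ ≤ ∫ v in (Ioc U1 U2)ᶜ, K * Real.exp (-W ^ 2 / 8) * Real.exp (-(1 / 8) * (v - t) ^ 2) := by
        apply setIntegral_mono_on hfi.norm.integrableOn hg4.integrableOn measurableSet_Ioc.compl
        intro v hv
        refine (hb v).trans ?_
        rw [mul_assoc, ← Real.exp_add]
        apply mul_le_mul_of_nonneg_left _ hK
        apply Real.exp_le_exp.2
        have hvw : W ^ 2 ≤ (v - t) ^ 2 := by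
          rw [mem_compl_iff, mem_Ioc, not_and_or, not_lt, not_le] at hv
          rcases hv with hv | hv
          · nlinarith
          · nlinarith
        nlinarith
    _ ≤ ∫ v : ℝ, K * Real.exp (-W ^ 2 / 8) * Real.exp (-(1 / 8) * (v - t) ^ 2) := by
        apply setIntegral_le_integral hg4
        exact Eventually.of_forall fun v => by positivity
    _ = K * Real.exp (-W ^ 2 / 8) * Real.sqrt (Real.pi / (1 / 8)) := by
        rw [integral_const_mul, H370.gauss_val]
    _ ≤ K * Real.exp (-W ^ 2 / 8) * 6 := by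
        apply mul_le_mul_of_nonneg_left _ (by positivity)
        rw [show (6 : ℝ) = Real.sqrt 36 by
          rw [show (36 : ℝ) = 6 ^ 2 by norm_num]; simp]
        apply Real.sqrt_le_sqrt
        have := Real.pi_le_four
        linarith
    _ = K * (6 * Real.exp (-W ^ 2 / 8)) := by ring

/-- the von Mangoldt function as complex coefficients -/
noncomputable def la (n : ℕ) : ℂ := (ArithmeticFunction.vonMangoldt n : ℂ)

lemma norm_la (n : ℕ) : ‖la n‖ ≤ ArithmeticFunction.vonMangoldt n := by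
  unfold la
  rw [Complex.norm_real, Real.norm_eq_abs, abs_of_nonneg ArithmeticFunction.vonMangoldt_nonneg]

lemma ld_la {s : ℂ} (hs : 1 < s.re) : deriv riemannZeta s / riemannZeta s = - H370.DD la s := by
  have h := ArithmeticFunction.LSeries_vonMangoldt_eq_deriv_riemannZeta_div hs
  have h2 : LSeries (fun n => (ArithmeticFunction.vonMangoldt n : ℂ)) s = H370.DD la s := by
    unfold LSeries H370.DD
    congr 1
    funext n
    rw [LSeries.term_def]
    split_ifs with h0
    · subst h0; simp [la]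
    · unfold la
      rw [Complex.cpow_neg, div_eq_mul_inv]
  rw [← h2, h]
  ring

/-- the integral of the Dirichlet series against the kernel -/
lemma DV_integral {V : ℂ → ℂ} {M0 M : ℝ} (hM : 0 ≤ M) (hV : KerOK V M0 M) {σ : ℝ} (h1 : 1 / 2 ≤ σ)
    (h2 : σ < 3 / 2) (t : ℝ) :
    (∫ v : ℝ, H370.DD la (⟨3 / 2, v⟩ : ℂ) * V (((v - t : ℝ) : ℂ) - ((3 / 2 - σ : ℝ) : ℂ) * I)) =
      ∑' n : ℕ, (ArithmeticFunction.vonMangoldt n : ℂ) * (n : ℂ) ^ (-(pt σ t)) *
          VH V (Real.log n) := by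
  have hVd := hV.1
  have hVs := hV.2.2.2
  set g : ℝ → ℂ := fun v => V (((v - t : ℝ) : ℂ) - ((3 / 2 - σ : ℝ) : ℂ) * I) with hg
  have hcl : Continuous g := hVd.continuous.comp (by fun_prop)
  have hgb : ∀ v, ‖g v‖ ≤ M * Real.exp (-(1 / 4) * (v - t) ^ 2) := by
    intro v
    have h := hVs (((v - t : ℝ) : ℂ) - ((3 / 2 - σ : ℝ) : ℂ) * I) (by
      simp only [sub_im, ofReal_im, mul_im, ofReal_re, I_im, mul_one, I_re, mul_zero, add_zero, zero_sub,
        abs_neg]
      rw [abs_of_nonneg (by linarith)]; linarith)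
    have e1 : (((v - t : ℝ) : ℂ) - ((3 / 2 - σ : ℝ) : ℂ) * I).re = v - t := by simp
    rw [e1] at h
    refine h.trans (le_of_eq ?_)
    congr 2; ring
  set f : ℕ → ℝ → ℂ := fun n v => la n * (n : ℂ) ^ (-(⟨3 / 2, v⟩ : ℂ)) * g v with hf
  have hnb : ∀ n v, ‖f n v‖ ≤ (ArithmeticFunction.vonMangoldt n * (n : ℝ) ^ (-(3 / 2 : ℝ))) *
      (M * Real.exp (-(1 / 4) * (v - t) ^ 2)) := by
    intro n v
    simp only [hf]
    rw [norm_mul]
    apply mul_le_mul (H370.norm_npow n v (la n) (norm_la n)) (hgb v) (norm_nonneg _)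
      (mul_nonneg ArithmeticFunction.vonMangoldt_nonneg (by positivity))
  have hla0 : la 0 = 0 := by simp [la]
  have hcont : ∀ n, Continuous (f n) := by
    intro n
    rcases Nat.eq_zero_or_pos n with h | h
    · subst h
      simp only [hf, hla0, zero_mul]
      exact continuous_const
    · simp only [hf]
      have : (fun v : ℝ => la n * (n : ℂ) ^ (-(⟨3 / 2, v⟩ : ℂ))) =
          fun v : ℝ => la n * cexp (-((Real.log n : ℝ) : ℂ) * ((3 / 2 : ℝ) + v * I)) := by
        funext v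
        rw [H370.term_eq n h, H370.mk_eq]
      refine Continuous.mul ?_ hcl
      rw [this]
      fun_prop
  have hG : Integrable (fun v : ℝ => M * Real.exp (-(1 / 4) * (v - t) ^ 2)) :=
    (H370.gauss_int t (1 / 4) (by norm_num)).const_mul _
  have hint : ∀ n, Integrable (f n) := fun n =>
    (hG.const_mul (ArithmeticFunction.vonMangoldt n * (n : ℝ) ^ (-(3 / 2 : ℝ)))).mono'
      (hcont n).aestronglyMeasurable (Eventually.of_forall (hnb n))
  have hsum : Summable fun n => ∫ v, ‖f n v‖ := by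
    refine Summable.of_nonneg_of_le (fun n => integral_nonneg fun v => norm_nonneg _) (fun n => ?_)
      (H370.lam_summable.mul_right (∫ v : ℝ, M * Real.exp (-(1 / 4) * (v - t) ^ 2)))
    rw [← integral_const_mul]
    exact integral_mono (hint n).norm (hG.const_mul _) (fun v => hnb n v)
  have key := hasSum_integral_of_summable_integral_norm hint hsum
  have e1 : (fun v : ℝ => H370.DD la (⟨3 / 2, v⟩ : ℂ) * g v) = fun v => ∑' n, f n v := by
    funext v
    simp only [hf, H370.DD]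
    rw [tsum_mul_right]
  rw [e1, ← key.tsum_eq]
  congr 1
  funext n
  rcases Nat.eq_zero_or_pos n with h | h
  · subst h
    simp [hf, hla0]
  · have hξ : 0 ≤ Real.log n := Real.log_nonneg (by exact_mod_cast h)
    have hs := shiftV hM hV (a := 3 / 2 - σ) (by linarith) (by linarith) hξ
    have e2 : (∫ v : ℝ, f n v) = ∫ v : ℝ, f n (v + t) := (integral_add_right_eq_self (f n) t).symm
    rw [e2]
    have e3 : ∀ v : ℝ, f n (v + t) = (la n * cexp (-((Real.log n : ℝ) : ℂ) * ((3 / 2 : ℝ) + t * I))) *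
        (V ((v : ℂ) - ((3 / 2 - σ : ℝ) : ℂ) * I) * cexp (-((Real.log n : ℝ) : ℂ) * (v : ℂ) * I)) := by
      intro v
      simp only [hf, hg]
      rw [H370.term_eq n h, H370.mk_eq]
      have e4 : cexp (-((Real.log n : ℝ) : ℂ) * (((3 / 2 : ℝ) : ℂ) + ((v + t : ℝ) : ℂ) * I)) =
          cexp (-((Real.log n : ℝ) : ℂ) * ((3 / 2 : ℝ) + t * I)) *
          cexp (-((Real.log n : ℝ) : ℂ) * (v : ℂ) * I) := by
        rw [← Complex.exp_add]
        congr 1
        push_cast; ring
      rw [e4, show v + t - t = v by ring]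
      ring
    simp_rw [e3]
    rw [integral_const_mul, hs]
    have e5 : (n : ℂ) ^ (-(pt σ t)) = cexp (-((Real.log n : ℝ) : ℂ) * ((3 / 2 : ℝ) + t * I)) *
        cexp ((Real.log n * (3 / 2 - σ) : ℝ) : ℂ) := by
      rw [H370.term_eq n h, ← Complex.exp_add]
      congr 1
      unfold pt
      push_cast; ring
    rw [e5]
    unfold la
    ring

end Pool.Agent.Y949.OJ
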